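import Mathlib

set_option autoImplicit false

/-!
# Representations of the Klein four group over `F₂`
-/

open CategoryTheory CategoryTheory.MonoidalCategory CategoryTheory.Limits

namespace Pool.Agent.X29.V4

abbrev K : Type := ZMod 2
abbrev G : Type := Multiplicative (ZMod 2 × ZMod 2)
abbrev Rp := Rep.{0} K G

def ga : G := Multiplicative.ofAdd (1, 0)
def gb : G := Multiplicative.ofAdd (0, 1)

theorem ga_sq : ga * ga = 1 := by decide
theorem gb_sq : gb * gb = 1 := by decide
theorem ga_gb : ga * gb = gb * ga := by decide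
theorem g_cases : ∀ g : G, g = 1 ∨ g = ga ∨ g = gb ∨ g = ga * gb := by decide

theorem add_self {V : Type*} [AddCommGroup V] [Module K V] (v : V) : v + v = 0 :=
  ZModModule.add_self v

theorem neg_eq {V : Type*} [AddCommGroup V] [Module K V] (v : V) : -v = v :=
  ZModModule.neg_eq_self v

/-- the operator `x = a - 1` -/
noncomputable def xo (X : Rp) : X.V →ₗ[K] X.V := X.ρ ga + LinearMap.id
/-- the operator `y = b - 1` -/
noncomputable def yo (X : Rp) : X.V →ₗ[K] X.V := X.ρ gb + LinearMap.id

theorem xo_apply (X : Rp) (v : X.V) : xo X v = X.ρ ga v + v := rfl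
theorem yo_apply (X : Rp) (v : X.V) : yo X v = X.ρ gb v + v := rfl

theorem rho_a (X : Rp) (v : X.V) : X.ρ ga v = xo X v + v := by
  rw [xo_apply, add_assoc, add_self, add_zero]
theorem rho_b (X : Rp) (v : X.V) : X.ρ gb v = yo X v + v := by
  rw [yo_apply, add_assoc, add_self, add_zero]

theorem rho_aa (X : Rp) (v : X.V) : X.ρ ga (X.ρ ga v) = v := by
  rw [← Module.End.mul_apply, ← map_mul, ga_sq, map_one, Module.End.one_apply]
theorem rho_bb (X : Rp) (v : X.V) : X.ρ gb (X.ρ gb v) = v := by
  rw [← Module.End.mul_apply, ← map_mul, gb_sq, map_one, Module.End.one_apply]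
theorem rho_ab (X : Rp) (v : X.V) : X.ρ ga (X.ρ gb v) = X.ρ gb (X.ρ ga v) := by
  rw [← Module.End.mul_apply, ← Module.End.mul_apply, ← map_mul, ← map_mul, ga_gb]

theorem xx (X : Rp) (v : X.V) : xo X (xo X v) = 0 := by
  rw [xo_apply, xo_apply, map_add, rho_aa]
  rw [add_comm v, add_self]
theorem yy (X : Rp) (v : X.V) : yo X (yo X v) = 0 := by
  rw [yo_apply, yo_apply, map_add, rho_bb]
  rw [add_comm v, add_self]
theorem xy (X : Rp) (v : X.V) : xo X (yo X v) = yo X (xo X v) := by
  rw [xo_apply, yo_apply, yo_apply, xo_apply, map_add, map_add, rho_ab]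
  abel

/-- a linear map commuting with `a` and `b` gives a morphism -/
noncomputable def homMk {X Y : Rp} (f : X.V →ₗ[K] Y.V) (hx : ∀ v, f (xo X v) = xo Y (f v))
    (hy : ∀ v, f (yo X v) = yo Y (f v)) : X ⟶ Y :=
  Rep.ofHom (ρ := X.ρ) (σ := Y.ρ) ⟨f, by
    have ha : ∀ v, f (X.ρ ga v) = Y.ρ ga (f v) := by
      intro v
      rw [rho_a, rho_a, map_add, hx]
    have hb : ∀ v, f (X.ρ gb v) = Y.ρ gb (f v) := by
      intro v
      rw [rho_b, rho_b, map_add, hy]
    intro g
    apply LinearMap.ext
    intro v
    rw [LinearMap.comp_apply, LinearMap.comp_apply]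
    rcases g_cases g with rfl | rfl | rfl | rfl
    · rw [map_one, map_one, Module.End.one_apply, Module.End.one_apply]
    · exact ha v
    · exact hb v
    · rw [map_mul, map_mul, Module.End.mul_apply, Module.End.mul_apply, ha, hb]⟩

theorem homMk_apply {X Y : Rp} (f : X.V →ₗ[K] Y.V) (hx : ∀ v, f (xo X v) = xo Y (f v))
    (hy : ∀ v, f (yo X v) = yo Y (f v)) (v : X.V) : (homMk f hx hy).hom v = f v := rfl

theorem hom_x {X Y : Rp} (f : X ⟶ Y) (v : X.V) : f.hom (xo X v) = xo Y (f.hom v) := by
  rw [xo_apply, xo_apply, map_add, Rep.hom_comm_apply]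
theorem hom_y {X Y : Rp} (f : X ⟶ Y) (v : X.V) : f.hom (yo X v) = yo Y (f.hom v) := by
  rw [yo_apply, yo_apply, map_add, Rep.hom_comm_apply]

/-- `i ↦ Aⁱ` for an element with `A * A = 1` -/
noncomputable def pw {M : Type*} [Monoid M] (A : M) (i : ZMod 2) : M := if i = 0 then 1 else A

theorem pw_add {M : Type*} [Monoid M] {A : M} (hA : A * A = 1) (i j : ZMod 2) :
    pw A (i + j) = pw A i * pw A j := by
  have h0 : (1 : ZMod 2) ≠ 0 := by decide
  have h11 : (1 : ZMod 2) + 1 = 0 := by decide
  have e : ∀ t : ZMod 2, t = 0 ∨ t = 1 := by decide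
  unfold pw
  rcases e i with rfl | rfl <;> rcases e j with rfl | rfl
  · simp
  · simp
  · simp
  · rw [h11, if_pos rfl, if_neg h0, hA]

theorem pw_comm {M : Type*} [Monoid M] {A B : M} (h : A * B = B * A) (i j : ZMod 2) :
    pw A i * pw B j = pw B j * pw A i := by
  unfold pw
  split_ifs <;> simp [h]

/-- an object from a space with two commuting operators of square zero -/
noncomputable abbrev mk (V : Type) [AddCommGroup V] [Module K V] (x y : V →ₗ[K] V)
    (hx : ∀ v, x (x v) = 0) (hy : ∀ v, y (y v) = 0) (hxy : ∀ v, x (y v) = y (x v)) : Rp :=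
  Rep.of (X := V)
    { toFun := fun g => pw (1 + x : Module.End K V) (Multiplicative.toAdd g).1 *
        pw (1 + y : Module.End K V) (Multiplicative.toAdd g).2
      map_one' := by simp [pw]
      map_mul' := by
        have hxx : (1 + x) * (1 + x) = (1 : Module.End K V) := by
          apply LinearMap.ext
          intro v
          simp only [Module.End.mul_apply, LinearMap.add_apply, Module.End.one_apply, map_add, hx]
          rw [add_zero, add_assoc, add_self, add_zero]
        have hyy : (1 + y) * (1 + y) = (1 : Module.End K V) := by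
          apply LinearMap.ext
          intro v
          simp only [Module.End.mul_apply, LinearMap.add_apply, Module.End.one_apply, map_add, hy]
          rw [add_zero, add_assoc, add_self, add_zero]
        have hc : (1 + y) * (1 + x) = (1 + x) * (1 + y : Module.End K V) := by
          apply LinearMap.ext
          intro v
          simp only [Module.End.mul_apply, LinearMap.add_apply, Module.End.one_apply, map_add, hxy]
          abel
        intro g h
        have e1 : (Multiplicative.toAdd (g * h)).1 =
            (Multiplicative.toAdd g).1 + (Multiplicative.toAdd h).1 := rfl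
        have e2 : (Multiplicative.toAdd (g * h)).2 =
            (Multiplicative.toAdd g).2 + (Multiplicative.toAdd h).2 := rfl
        rw [e1, e2, pw_add hxx, pw_add hyy, mul_assoc, mul_assoc]
        congr 1
        rw [← mul_assoc, ← mul_assoc]
        congr 1
        exact pw_comm hc.symm _ _ }

section
variable (V : Type) [AddCommGroup V] [Module K V] (x y : V →ₗ[K] V)
    (hx : ∀ v, x (x v) = 0) (hy : ∀ v, y (y v) = 0) (hxy : ∀ v, x (y v) = y (x v))

theorem xo_mk (v : V) : xo (mk V x y hx hy hxy) v = x v := by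
  have h : (mk V x y hx hy hxy).ρ ga = (1 + x : Module.End K V) := by
    change pw (1 + x : Module.End K V) (1 : ZMod 2) * pw (1 + y : Module.End K V) (0 : ZMod 2) = _
    have h0 : (1 : ZMod 2) ≠ 0 := by decide
    unfold pw
    rw [if_pos rfl, if_neg h0, mul_one]
  rw [xo_apply, h]
  change v + x v + v = x v
  rw [add_comm v, add_assoc, add_self, add_zero]

theorem yo_mk (v : V) : yo (mk V x y hx hy hxy) v = y v := by
  have h : (mk V x y hx hy hxy).ρ gb = (1 + y : Module.End K V) := by
    change pw (1 + x : Module.End K V) (0 : ZMod 2) * pw (1 + y : Module.End K V) (1 : ZMod 2) = _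
    have h0 : (1 : ZMod 2) ≠ 0 := by decide
    unfold pw
    rw [if_pos rfl, if_neg h0, one_mul]
  rw [yo_apply, h]
  change v + y v + v = y v
  rw [add_comm v, add_assoc, add_self, add_zero]

end

/-- isomorphism from a linear equivalence commuting with the operators -/
noncomputable def isoMk {X Y : Rp} (e : X.V ≃ₗ[K] Y.V) (hx : ∀ v, e (xo X v) = xo Y (e v))
    (hy : ∀ v, e (yo X v) = yo Y (e v)) : X ≅ Y where
  hom := homMk (X := X) (Y := Y) e.toLinearMap hx hy
  inv := homMk (X := Y) (Y := X) e.symm.toLinearMap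
    (by
      intro v
      apply e.injective
      change e (e.symm (xo Y v)) = e (xo X (e.symm v))
      rw [hx, e.apply_symm_apply, e.apply_symm_apply])
    (by
      intro v
      apply e.injective
      change e (e.symm (yo Y v)) = e (yo X (e.symm v))
      rw [hy, e.apply_symm_apply, e.apply_symm_apply])
  hom_inv_id := by
    apply Rep.hom_ext
    apply Representation.IntertwiningMap.ext
    apply LinearMap.ext
    intro v
    exact e.symm_apply_apply v
  inv_hom_id := by
    apply Rep.hom_ext
    apply Representation.IntertwiningMap.ext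
    apply LinearMap.ext
    intro v
    exact e.apply_symm_apply v

/-- linear equivalence of an isomorphism -/
noncomputable def lin {X Y : Rp} (i : X ≅ Y) : X.V ≃ₗ[K] Y.V :=
  { i.hom.hom.toLinearMap with
    invFun := i.inv.hom
    left_inv := fun v => Rep.inv_hom_apply X Y i v
    right_inv := fun v => Rep.hom_inv_apply X Y i v }

theorem lin_apply {X Y : Rp} (i : X ≅ Y) (v : X.V) : lin i v = i.hom.hom v := rfl

theorem lin_x {X Y : Rp} (i : X ≅ Y) (v : X.V) : lin i (xo X v) = xo Y (lin i v) :=
  hom_x i.hom v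
theorem lin_y {X Y : Rp} (i : X ≅ Y) (v : X.V) : lin i (yo X v) = yo Y (lin i v) :=
  hom_y i.hom v

/-- the norm operator `σ = x y` -/
noncomputable def sg (X : Rp) : X.V →ₗ[K] X.V := xo X ∘ₗ yo X

theorem sg_apply (X : Rp) (v : X.V) : sg X v = xo X (yo X v) := rfl

theorem hom_sg {X Y : Rp} (f : X ⟶ Y) (v : X.V) : f.hom (sg X v) = sg Y (f.hom v) := by
  rw [sg_apply, sg_apply, hom_x, hom_y]

/-- the invariant `dim X - 4 rank σ` -/
noncomputable def d (X : Rp) : ℤ :=
  (Module.finrank K X.V : ℤ) - 4 * (Module.finrank K (LinearMap.range (sg X)) : ℤ)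

theorem finrank_iso {X Y : Rp} (i : X ≅ Y) : Module.finrank K X.V = Module.finrank K Y.V :=
  (lin i).finrank_eq

theorem rank_iso {X Y : Rp} (i : X ≅ Y) : Module.finrank K (LinearMap.range (sg X)) =
    Module.finrank K (LinearMap.range (sg Y)) := by
  have h : (LinearMap.range (sg X)).map (lin i).toLinearMap = LinearMap.range (sg Y) := by
    ext w
    constructor
    · rintro ⟨u, ⟨v, rfl⟩, rfl⟩
      exact ⟨lin i v, (hom_sg i.hom v).symm⟩
    · rintro ⟨v, rfl⟩
      refine ⟨sg X ((lin i).symm v), ⟨_, rfl⟩, ?_⟩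
      have := hom_sg i.hom ((lin i).symm v)
      change lin i (sg X ((lin i).symm v)) = _
      rw [lin_apply, this]
      congr 1
      exact (lin i).apply_symm_apply v
  rw [← h]
  exact (LinearEquiv.finrank_map_eq (lin i) _).symm

theorem d_iso {X Y : Rp} (i : X ≅ Y) : d X = d Y := by
  unfold d
  rw [finrank_iso i, rank_iso i]

end Pool.Agent.X29.V4
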