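import Pool.Agent.X29.V4.Rec

set_option autoImplicit false

/-!
# The core of an object
-/

open CategoryTheory CategoryTheory.MonoidalCategory CategoryTheory.Limits ZeroObject

namespace Pool.Agent.X29.V4

theorem fr_ext {V : Type} [AddCommGroup V] [Module K V] {X : Rp} (f g : Fr V ⟶ X)
    (h : ∀ v : V, f.hom ((v, 0, 0, 0) : V × V × V × V) = g.hom ((v, 0, 0, 0) : V × V × V × V)) :
    f = g := by
  apply Rep.hom_ext
  apply Representation.IntertwiningMap.ext
  apply LinearMap.ext
  intro (c : V × V × V × V)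
  have e : c = ((c.1, 0, 0, 0) : V × V × V × V) + xo (Fr V) ((c.2.1, 0, 0, 0) : V × V × V × V) +
      yo (Fr V) ((c.2.2.1, 0, 0, 0) : V × V × V × V) +
        sg (Fr V) ((c.2.2.2, 0, 0, 0) : V × V × V × V) := by
    rw [frx_apply, fry_apply, frs_apply]
    ext <;> simp
  have F : ∀ f : Fr V ⟶ X, f.hom c = f.hom ((c.1, 0, 0, 0) : V × V × V × V) +
      xo X (f.hom ((c.2.1, 0, 0, 0) : V × V × V × V)) +
      yo X (f.hom ((c.2.2.1, 0, 0, 0) : V × V × V × V)) +
        sg X (f.hom ((c.2.2.2, 0, 0, 0) : V × V × V × V)) := by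
    intro f
    rw [← hom_x, ← hom_y, ← hom_sg, ← map_add, ← map_add, ← map_add]
    exact congrArg f.hom e
  change f.hom c = g.hom c
  rw [F f, F g, h, h, h, h]

/-- an object with `σ ≠ 0` has a free direct summand -/
theorem exists_split (X : Rp) (z : X.V) (hz : sg X z ≠ 0) : ∃ (i : Fr K ⟶ X) (r : X ⟶ Fr K),
    i ≫ r = 𝟙 (Fr K) := by
  have hns : sg X z ∉ Submodule.span K ({z, xo X z, yo X z} : Set X.V) := by
    intro hmem
    rw [Submodule.mem_span_insert] at hmem
    obtain ⟨α, w, hw, h1⟩ := hmem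
    rw [Submodule.mem_span_insert] at hw
    obtain ⟨β, w', hw', h2⟩ := hw
    rw [Submodule.mem_span_singleton] at hw'
    obtain ⟨γ, h3⟩ := hw'
    rw [h2, ← h3] at h1
    -- apply `σ`
    have h4 := congrArg (sg X) h1
    have s1 : sg X (sg X z) = 0 := by
      rw [sg_apply, sg_apply, ← xy, xx]
    have s2 : sg X (xo X z) = 0 := by
      rw [sg_apply, ← xy, xx]
    have s3 : sg X (yo X z) = 0 := by
      rw [sg_apply, yy, map_zero]
    rw [map_add, map_add, map_smul, map_smul, map_smul, s1, s2, s3, smul_zero, smul_zero,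
      add_zero, add_zero] at h4
    have hα : α = 0 := by
      rcases smul_eq_zero.mp h4.symm with h | h
      · exact h
      · exact absurd h hz
    rw [hα, zero_smul, zero_add] at h1
    -- apply `y`
    have h5 := congrArg (yo X) h1
    have t1 : yo X (sg X z) = 0 := by rw [sg_apply, ← xy, yy, map_zero]
    have t2 : yo X (xo X z) = sg X z := (xy X z).symm
    rw [map_add, map_smul, map_smul, t1, t2, yy, smul_zero, add_zero] at h5
    have hβ : β = 0 := by
      rcases smul_eq_zero.mp h5.symm with h | h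
      · exact h
      · exact absurd h hz
    rw [hβ, zero_smul, zero_add] at h1
    have h6 := congrArg (xo X) h1
    have u1 : xo X (sg X z) = 0 := by rw [sg_apply, xx]
    rw [map_smul, u1] at h6
    have hγ : γ = 0 := by
      rcases smul_eq_zero.mp h6.symm with h | h
      · exact h
      · exact absurd h hz
    rw [hγ, zero_smul] at h1
    exact hz h1
  obtain ⟨l, hl1, hl2⟩ := Submodule.exists_le_ker_of_notMem hns
  have hl1' : l (sg X z) = 1 := by
    have e : ∀ t : ZMod 2, t ≠ 0 → t = 1 := by decide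
    exact e _ hl1
  have lz : l z = 0 := hl2 (Submodule.subset_span (by simp))
  have lx : l (xo X z) = 0 := hl2 (Submodule.subset_span (by simp))
  have ly : l (yo X z) = 0 := hl2 (Submodule.subset_span (by simp))
  let rl : X.V →ₗ[K] (K × K × K × K) :=
    LinearMap.prod (l ∘ₗ sg X) (LinearMap.prod (l ∘ₗ yo X) (LinearMap.prod (l ∘ₗ xo X) l))
  have hrl : ∀ v, rl v = (l (sg X v), l (yo X v), l (xo X v), l v) := fun _ => rfl
  let r : X ⟶ Fr K := homMk (Y := Fr K) rl
    (by
      intro v
      rw [frx_apply, hrl, hrl]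
      simp only [sg_apply, xx, ← xy, map_zero])
    (by
      intro v
      rw [fry_apply, hrl, hrl]
      simp only [sg_apply, yy, map_zero])
  let i : Fr K ⟶ X := frLift (LinearMap.toSpanSingleton K X.V z)
  refine ⟨i, r, fr_ext _ _ ?_⟩
  intro v
  change rl (i.hom ((v, 0, 0, 0) : K × K × K × K)) = ((v, 0, 0, 0) : K × K × K × K)
  have hi : i.hom ((v, 0, 0, 0) : K × K × K × K) = v • z := by
    change (frLift (LinearMap.toSpanSingleton K X.V z)).hom _ = _
    rw [frLift_apply]
    simp
  rw [hi, map_smul, hrl, hl1', lz, lx, ly]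
  ext <;> simp

theorem finite_left {X N P : Rp} [Module.Finite K X.V] (e : X ≅ N ⊞ P) : Module.Finite K N.V := by
  have h : Function.Injective ((lin e).symm.toLinearMap ∘ₗ
      (biprod.inl : N ⟶ N ⊞ P).hom.toLinearMap) := by
    apply Function.Injective.comp (lin e).symm.injective
    intro a b hab
    have h1 := congrArg (fun t => (biprod.fst : N ⊞ P ⟶ N).hom t) hab
    change (biprod.fst : N ⊞ P ⟶ N).hom ((biprod.inl : N ⟶ N ⊞ P).hom a) =
      (biprod.fst : N ⊞ P ⟶ N).hom ((biprod.inl : N ⟶ N ⊞ P).hom b) at h1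
    rw [bi_fst_inl, bi_fst_inl] at h1
    exact h1
  exact Module.Finite.of_injective _ h

theorem finite_right {X N P : Rp} [Module.Finite K X.V] (e : X ≅ N ⊞ P) : Module.Finite K P.V := by
  have h : Function.Injective ((lin e).symm.toLinearMap ∘ₗ
      (biprod.inr : P ⟶ N ⊞ P).hom.toLinearMap) := by
    apply Function.Injective.comp (lin e).symm.injective
    intro a b hab
    have h1 := congrArg (fun t => (biprod.snd : N ⊞ P ⟶ P).hom t) hab
    change (biprod.snd : N ⊞ P ⟶ P).hom ((biprod.inr : P ⟶ N ⊞ P).hom a) =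
      (biprod.snd : N ⊞ P ⟶ P).hom ((biprod.inr : P ⟶ N ⊞ P).hom b) at h1
    rw [bi_snd_inr, bi_snd_inr] at h1
    exact h1
  exact Module.Finite.of_injective _ h

theorem exists_core : ∀ (n : ℕ) (X : Rp) [Module.Finite K X.V], Module.finrank K X.V = n →
    ∃ N P : Rp, Projective P ∧ Nonempty (X ≅ N ⊞ P) ∧ (Module.finrank K N.V : ℤ) = d X := by
  intro n
  induction n using Nat.strong_induction_on with
  | _ n ih =>
    intro X _ hX
    by_cases h : sg X = 0
    · refine ⟨X, (0 : Rp), inferInstance, ⟨isoBiprodZero (isZero_zero _)⟩, ?_⟩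
      unfold d
      rw [h, LinearMap.range_zero, finrank_bot]
      simp
    · obtain ⟨z, hz⟩ : ∃ z, sg X z ≠ 0 := by
        by_contra hcon
        push Not at hcon
        exact h (LinearMap.ext hcon)
      obtain ⟨i, r, hir⟩ := exists_split X z hz
      let S : ShortComplex Rp := ShortComplex.mk (kernel.ι r) r (kernel.condition r)
      have hS : S.Exact := ShortComplex.exact_of_f_is_kernel S (kernelIsKernel r)
      have hm : Mono S.f := inferInstanceAs (Mono (kernel.ι r))
      have sp : S.Splitting := ShortComplex.Splitting.ofExactOfSection S hS i hir hm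
      have e : X ≅ kernel r ⊞ Fr K := sp.isoBinaryBiproduct
      have := finite_left e
      have h1 : Module.finrank K X.V = Module.finrank K (kernel r : Rp).V + 4 := by
        rw [finrank_iso e, finrank_biprod]
        congr 1
        change Module.finrank K (K × K × K × K) = 4
        simp [Module.finrank_prod]
      obtain ⟨N, P, hP, ⟨e2⟩, hd⟩ := ih _ (by omega) (kernel r) rfl
      refine ⟨N, P ⊞ Fr K, inferInstance,
        ⟨e ≪≫ biprod.mapIso e2 (Iso.refl _) ≪≫ biprod.associator _ _ _⟩, ?_⟩
      rw [hd, d_iso e, d_biprod, d_projective (Fr K), add_zero]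

/-- the smallest dimension of a complement of a projective summand is `d X` -/
theorem sInf_eq (X : Rp) [Module.Finite K X.V] :
    ((sInf {m : ℕ | ∃ N P' : Rp, Projective P' ∧ Nonempty (X ≅ N ⊞ P') ∧
      Module.finrank K N.V = m} : ℕ) : ℤ) = d X := by
  obtain ⟨N, P, hP, he, hd⟩ := exists_core _ X rfl
  have hmem : Module.finrank K N.V ∈ {m : ℕ | ∃ N P' : Rp, Projective P' ∧
      Nonempty (X ≅ N ⊞ P') ∧ Module.finrank K N.V = m} := ⟨N, P, hP, he, rfl⟩
  have hne : ({m : ℕ | ∃ N P' : Rp, Projective P' ∧ Nonempty (X ≅ N ⊞ P') ∧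
      Module.finrank K N.V = m}).Nonempty := ⟨_, hmem⟩
  apply le_antisymm
  · rw [← hd]
    exact_mod_cast Nat.sInf_le hmem
  · obtain ⟨N', P', hP', ⟨e'⟩, hm⟩ := Nat.sInf_mem hne
    rw [← hm]
    have := finite_left e'
    have := finite_right e'
    rw [d_iso e', d_biprod, d_projective P', add_zero]
    unfold d
    have := (Module.finrank K (LinearMap.range (sg N')) : ℤ)
    omega

end Pool.Agent.X29.V4
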