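import Pool.Agent.X29.V4.Basic

set_option autoImplicit false

/-!
# Projective objects and the invariant `d`
-/

open CategoryTheory CategoryTheory.MonoidalCategory CategoryTheory.Limits

namespace Pool.Agent.X29.V4

section LinAlg

variable {V W : Type} [AddCommGroup V] [Module K V] [AddCommGroup W] [Module K W]

theorem rn [Module.Finite K V] (f : V →ₗ[K] W) (S : Submodule K V) :
    Module.finrank K (S.map f) + Module.finrank K (S ⊓ LinearMap.ker f : Submodule K V) =
      Module.finrank K S := by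
  have h := LinearMap.finrank_range_add_finrank_ker (f.domRestrict S)
  rw [LinearMap.range_domRestrict] at h
  have h2 : Module.finrank K (LinearMap.ker (f.domRestrict S)) =
      Module.finrank K (S ⊓ LinearMap.ker f : Submodule K V) := by
    have e : (LinearMap.ker (f.domRestrict S)).map S.subtype = S ⊓ LinearMap.ker f := by
      ext v
      constructor
      · rintro ⟨w, hw, rfl⟩
        exact ⟨w.2, hw⟩
      · rintro ⟨h1, h2⟩
        exact ⟨⟨v, h1⟩, h2, rfl⟩
    rw [← e]
    exact (Submodule.finrank_map_subtype_eq S _).symm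
  rw [h2] at h
  exact h

theorem rn_top [Module.Finite K V] (f : V →ₗ[K] W) :
    Module.finrank K (LinearMap.range f) + Module.finrank K (LinearMap.ker f) =
      Module.finrank K V := LinearMap.finrank_range_add_finrank_ker f

end LinAlg

theorem four_le (X : Rp) [Module.Finite K X.V] :
    4 * Module.finrank K (LinearMap.range (sg X)) ≤ Module.finrank K X.V := by
  have h1 := rn_top (xo X)
  have h2 : Module.finrank K (LinearMap.range (xo X)) ≤ Module.finrank K (LinearMap.ker (xo X)) := by
    apply Submodule.finrank_mono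
    rintro _ ⟨v, rfl⟩
    exact xx X v
  have h3 := rn (yo X) (LinearMap.range (xo X))
  have h4 : (LinearMap.range (xo X)).map (yo X) = LinearMap.range (sg X) := by
    ext v
    constructor
    · rintro ⟨_, ⟨w, rfl⟩, rfl⟩
      exact ⟨w, xy X w⟩
    · rintro ⟨w, rfl⟩
      exact ⟨xo X w, ⟨w, rfl⟩, (xy X w).symm⟩
  have h5 : Module.finrank K ((LinearMap.range (xo X)).map (yo X)) ≤
      Module.finrank K (LinearMap.range (xo X) ⊓ LinearMap.ker (yo X) : Submodule K X.V) := by
    apply Submodule.finrank_mono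
    rintro _ ⟨_, ⟨w, rfl⟩, rfl⟩
    exact ⟨⟨yo X w, xy X w⟩, yy X _⟩
  rw [h4] at h3 h5
  omega

theorem le_four (X : Rp) [Module.Finite K X.V] :
    Module.finrank K X.V ≤
      4 * Module.finrank K (LinearMap.ker (xo X) ⊓ LinearMap.ker (yo X) : Submodule K X.V) := by
  have h1 := rn_top (xo X)
  have h2 : Module.finrank K (LinearMap.range (xo X)) ≤ Module.finrank K (LinearMap.ker (xo X)) := by
    apply Submodule.finrank_mono
    rintro _ ⟨v, rfl⟩
    exact xx X v
  have h3 := rn (yo X) (LinearMap.ker (xo X))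
  have h5 : Module.finrank K ((LinearMap.ker (xo X)).map (yo X)) ≤
      Module.finrank K (LinearMap.ker (xo X) ⊓ LinearMap.ker (yo X) : Submodule K X.V) := by
    apply Submodule.finrank_mono
    rintro _ ⟨w, hw, rfl⟩
    refine ⟨?_, yy X _⟩
    change xo X (yo X w) = 0
    rw [xy, LinearMap.mem_ker.mp hw, map_zero]
  omega

/-! ### free objects -/

section Free

variable (V : Type) [AddCommGroup V] [Module K V]

noncomputable def frx : (V × V × V × V) →ₗ[K] (V × V × V × V) where
  toFun c := (0, c.1, 0, c.2.2.1)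
  map_add' a b := by simp
  map_smul' a b := by simp

noncomputable def fry : (V × V × V × V) →ₗ[K] (V × V × V × V) where
  toFun c := (0, 0, c.1, c.2.1)
  map_add' a b := by simp
  map_smul' a b := by simp

/-- the free object on `V` -/
noncomputable abbrev Fr : Rp :=
  mk (V × V × V × V) (frx V) (fry V) (fun _ => rfl) (fun _ => rfl) (fun _ => rfl)

end Free

theorem frx_apply {V : Type} [AddCommGroup V] [Module K V] (c : V × V × V × V) :
    xo (Fr V) c = (0, c.1, 0, c.2.2.1) := xo_mk _ _ _ _ _ _ c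
theorem fry_apply {V : Type} [AddCommGroup V] [Module K V] (c : V × V × V × V) :
    yo (Fr V) c = (0, 0, c.1, c.2.1) := yo_mk _ _ _ _ _ _ c
theorem frs_apply {V : Type} [AddCommGroup V] [Module K V] (c : V × V × V × V) :
    sg (Fr V) c = (0, 0, 0, c.1) := by
  rw [sg_apply, fry_apply, frx_apply]

/-- maps from a free object -/
noncomputable def frLin {V : Type} [AddCommGroup V] [Module K V] {X : Rp} (φ : V →ₗ[K] X.V) :
    (V × V × V × V) →ₗ[K] X.V where
  toFun c := φ c.1 + xo X (φ c.2.1) + yo X (φ c.2.2.1) + sg X (φ c.2.2.2)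
  map_add' a b := by
    simp only [Prod.fst_add, Prod.snd_add, map_add]
    abel
  map_smul' r a := by
    simp only [Prod.smul_fst, Prod.smul_snd, map_smul, RingHom.id_apply, smul_add]

noncomputable def frLift {V : Type} [AddCommGroup V] [Module K V] {X : Rp} (φ : V →ₗ[K] X.V) :
    Fr V ⟶ X :=
  homMk (X := Fr V) (frLin φ)
    (by
      intro c
      rw [frx_apply]
      change φ 0 + xo X (φ c.1) + yo X (φ 0) + sg X (φ c.2.2.1) =
        xo X (φ c.1 + xo X (φ c.2.1) + yo X (φ c.2.2.1) + sg X (φ c.2.2.2))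
      simp only [map_add, map_zero, sg_apply, xx, xy, zero_add, add_zero])
    (by
      intro c
      rw [fry_apply]
      change φ 0 + xo X (φ 0) + yo X (φ c.1) + sg X (φ c.2.1) =
        yo X (φ c.1 + xo X (φ c.2.1) + yo X (φ c.2.2.1) + sg X (φ c.2.2.2))
      simp only [map_add, map_zero, sg_apply, xy, yy, zero_add, add_zero])

theorem frLift_apply {V : Type} [AddCommGroup V] [Module K V] {X : Rp} (φ : V →ₗ[K] X.V)
    (c : V × V × V × V) :
    (frLift φ).hom c = φ c.1 + xo X (φ c.2.1) + yo X (φ c.2.2.1) + sg X (φ c.2.2.2) := rfl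

instance fr_projective (V : Type) [AddCommGroup V] [Module K V] : Projective (Fr V) where
  factors {E X} f e he := by
    have hs := (Rep.epi_iff_surjective e).mp he
    obtain ⟨s, hs⟩ := LinearMap.exists_rightInverse_of_surjective e.hom.toLinearMap
      (LinearMap.range_eq_top.mpr hs)
    have hs' : ∀ v, e.hom (s v) = v := fun v => LinearMap.congr_fun hs v
    let φ : V →ₗ[K] E.V := s ∘ₗ f.hom.toLinearMap ∘ₗ LinearMap.inl K V (V × V × V)
    have hφ : ∀ v, e.hom (φ v) = f.hom ((v, 0, 0, 0) : V × V × V × V) := fun v => hs' _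
    refine ⟨frLift φ, ?_⟩
    apply Rep.hom_ext
    apply Representation.IntertwiningMap.ext
    apply LinearMap.ext
    intro c
    change e.hom ((frLift φ).hom c) = f.hom c
    rw [frLift_apply, map_add, map_add, map_add, hom_x, hom_y, hom_sg, hφ, hφ, hφ, hφ]
    rw [← hom_x, ← hom_y, ← hom_sg, ← map_add, ← map_add, ← map_add]
    congr 1
    rw [frx_apply, fry_apply, frs_apply]
    ext <;> simp

/-! ### projective objects -/

section Proj

variable (P : Rp) [Projective P]

theorem exists_section : ∃ s : P ⟶ Fr P.V, ∀ v, (frLift (X := P) LinearMap.id).hom (s.hom v) = v := by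
  have he : Epi (frLift (X := P) LinearMap.id) := by
    rw [Rep.epi_iff_surjective]
    intro v
    refine ⟨((v, 0, 0, 0) : P.V × P.V × P.V × P.V), ?_⟩
    rw [frLift_apply]
    simp
  obtain ⟨s, hs⟩ := Projective.factors (𝟙 P) (frLift (X := P) LinearMap.id)
  refine ⟨s, fun v => ?_⟩
  have h := congrArg (fun f : P ⟶ P => f.hom v) hs
  exact h

theorem ker_sg_le : LinearMap.ker (sg P) ≤ LinearMap.range (xo P) ⊔ LinearMap.range (yo P) := by
  obtain ⟨s, hs⟩ := exists_section P
  intro v hv
  have h1 : sg (Fr P.V) (s.hom v) = 0 := by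
    rw [← hom_sg, LinearMap.mem_ker.mp hv, map_zero]
  obtain ⟨c, hc⟩ : ∃ c : P.V × P.V × P.V × P.V, s.hom v = c := ⟨_, rfl⟩
  rw [hc, frs_apply] at h1
  have h2 : c.1 = 0 := congrArg (fun t : P.V × P.V × P.V × P.V => t.2.2.2) h1
  have h3 := hs v
  rw [hc, frLift_apply, h2] at h3
  rw [← h3, map_zero, zero_add, sg_apply, add_assoc, add_comm (yo P _), ← add_assoc, ← map_add]
  exact Submodule.add_mem_sup ⟨_, rfl⟩ ⟨_, rfl⟩

theorem fix_le : LinearMap.ker (xo P) ⊓ LinearMap.ker (yo P) ≤ LinearMap.range (sg P) := by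
  obtain ⟨s, hs⟩ := exists_section P
  rintro v ⟨hx, hy⟩
  have h1 : xo (Fr P.V) (s.hom v) = 0 := by
    rw [← hom_x, LinearMap.mem_ker.mp hx, map_zero]
  have h1' : yo (Fr P.V) (s.hom v) = 0 := by
    rw [← hom_y, LinearMap.mem_ker.mp hy, map_zero]
  obtain ⟨c, hc⟩ : ∃ c : P.V × P.V × P.V × P.V, s.hom v = c := ⟨_, rfl⟩
  rw [hc, frx_apply] at h1
  rw [hc, fry_apply] at h1'
  have h2 : c.1 = 0 := congrArg (fun t : P.V × P.V × P.V × P.V => t.2.1) h1
  have h3 : c.2.2.1 = 0 := congrArg (fun t : P.V × P.V × P.V × P.V => t.2.2.2) h1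
  have h4 : c.2.1 = 0 := congrArg (fun t : P.V × P.V × P.V × P.V => t.2.2.2) h1'
  have h5 := hs v
  rw [hc, frLift_apply, h2, h3, h4] at h5
  refine ⟨c.2.2.2, ?_⟩
  rw [← h5]
  simp

theorem d_projective [Module.Finite K P.V] : d P = 0 := by
  have h1 := four_le P
  have h2 := le_four P
  have h3 := Submodule.finrank_mono (fix_le P)
  unfold d
  omega

end Proj

/-- a short exact sequence -/
structure SES (A B C : Rp) where
  i : A ⟶ B
  p : B ⟶ C
  inj : ∀ v, i.hom v = 0 → v = 0
  surj : ∀ w, ∃ v, p.hom v = w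
  zero : ∀ v, p.hom (i.hom v) = 0
  exact : ∀ v, p.hom v = 0 → ∃ u, i.hom u = v

/-- the radical -/
noncomputable def rad (X : Rp) : Submodule K X.V := LinearMap.range (xo X) ⊔ LinearMap.range (yo X)

theorem d_syzygy {A P Y : Rp} [Module.Finite K A.V] [Module.Finite K P.V] [Module.Finite K Y.V]
    [Projective P] (S : SES A P Y) :
    d A = 3 * (Module.finrank K Y.V : ℤ) - 4 * (Module.finrank K (rad Y) : ℤ) := by
  have hi : Function.Injective S.i.hom.toLinearMap := by
    rw [← LinearMap.ker_eq_bot, LinearMap.ker_eq_bot']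
    exact S.inj
  have hk : LinearMap.range S.i.hom.toLinearMap = LinearMap.ker S.p.hom.toLinearMap := by
    ext v
    constructor
    · rintro ⟨u, rfl⟩
      exact S.zero u
    · intro hv
      exact S.exact v hv
  have hr : LinearMap.range S.p.hom.toLinearMap = ⊤ := LinearMap.range_eq_top.mpr S.surj
  -- dimension of `A`
  have h1 := rn_top S.p.hom.toLinearMap
  rw [hr, finrank_top, ← hk, LinearMap.finrank_range_of_inj hi] at h1
  -- rank of `σ` on `A`
  have h2 : (LinearMap.range (sg A)).map S.i.hom.toLinearMap =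
      (LinearMap.ker S.p.hom.toLinearMap).map (sg P) := by
    rw [← hk]
    ext v
    constructor
    · rintro ⟨_, ⟨u, rfl⟩, rfl⟩
      exact ⟨S.i.hom u, ⟨u, rfl⟩, (hom_sg S.i u).symm⟩
    · rintro ⟨_, ⟨u, rfl⟩, rfl⟩
      exact ⟨sg A u, ⟨u, rfl⟩, hom_sg S.i u⟩
  have h3 : Module.finrank K (LinearMap.range (sg A)) =
      Module.finrank K ((LinearMap.ker S.p.hom.toLinearMap).map (sg P)) := by
    rw [← h2]
    exact (LinearEquiv.finrank_eq (Submodule.equivMapOfInjective _ hi _))
  have h4 := rn (sg P) (LinearMap.ker S.p.hom.toLinearMap)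
  have h5 := rn S.p.hom.toLinearMap (LinearMap.ker (sg P))
  have h6 : (LinearMap.ker (sg P)).map S.p.hom.toLinearMap = rad Y := by
    apply le_antisymm
    · rintro _ ⟨v, hv, rfl⟩
      have h7 := ker_sg_le P hv
      obtain ⟨_, ⟨a, rfl⟩, _, ⟨b, rfl⟩, hab⟩ := Submodule.mem_sup.mp h7
      rw [← hab]
      change S.p.hom (xo P a + yo P b) ∈ _
      rw [map_add, hom_x, hom_y]
      exact Submodule.add_mem_sup ⟨_, rfl⟩ ⟨_, rfl⟩
    · apply sup_le
      · rintro _ ⟨w, rfl⟩
        obtain ⟨v, rfl⟩ := S.surj w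
        refine ⟨xo P v, ?_, hom_x S.p v⟩
        change xo P (yo P (xo P v)) = 0
        rw [← xy, xx]
      · rintro _ ⟨w, rfl⟩
        obtain ⟨v, rfl⟩ := S.surj w
        refine ⟨yo P v, ?_, hom_y S.p v⟩
        change xo P (yo P (yo P v)) = 0
        rw [yy, map_zero]
  rw [h6] at h5
  rw [inf_comm] at h5
  have h8 := rn_top (sg P)
  have h9 : d P = 0 := d_projective P
  have h10 : Module.finrank K (LinearMap.ker S.p.hom.toLinearMap) = Module.finrank K A.V := by
    rw [← hk, LinearMap.finrank_range_of_inj hi]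
  unfold d at h9 ⊢
  omega

end Pool.Agent.X29.V4
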