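import Pool.Agent.X29.V4.Zig

set_option autoImplicit false

/-!
# The recursion for the tensor powers of `Ω k ⊞ Ω⁻¹ k`
-/

open CategoryTheory CategoryTheory.MonoidalCategory CategoryTheory.Limits

namespace Pool.Agent.X29.V4

/-- the syzygies of the trivial module -/
noncomputable def D : ℤ → Rp
  | Int.ofNat a => ZA a
  | Int.negSucc a => ZB (a + 1)

instance (a : ℤ) : Module.Finite K (D a).V := by
  cases a with
  | ofNat a => exact inferInstanceAs (Module.Finite K (ZA a).V)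
  | negSucc a => exact inferInstanceAs (Module.Finite K (ZB (a + 1)).V)

theorem d_D (a : ℤ) : d (D a) = 2 * |a| + 1 := by
  cases a with
  | ofNat a =>
    change d (ZA a) = _
    rw [d_ZA]
    simp
  | negSucc a =>
    change d (ZB (a + 1)) = _
    rw [d_ZB, Int.negSucc_eq, abs_neg, abs_of_nonneg (by positivity)]
    push_cast
    rfl

/-- `B 0` is `A 0` -/
noncomputable def isoBA : ZA 0 ≅ ZB 0 :=
  isoMk (X := ZA 0) (Y := ZB 0)
    { toFun := fun c => (0, Finsupp.equivFunOnFinite.symm c.1)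
      map_add' := fun u v => by
        refine Prod.ext (add_zero _).symm ?_
        ext j
        rfl
      map_smul' := fun r v => by
        refine Prod.ext (smul_zero _).symm ?_
        ext j
        rfl
      invFun := fun c => (⇑c.2, 0)
      left_inv := fun c => Prod.ext rfl (Subsingleton.elim _ _)
      right_inv := fun c => Prod.ext (Subsingleton.elim _ _) (by ext; rfl) }
    (fun v => by
      rw [zax, zbx]
      refine Prod.ext rfl ?_
      ext j
      simp)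
    (fun v => by
      rw [zay, zby]
      refine Prod.ext rfl ?_
      ext j
      simp)

theorem ses_D (a : ℤ) : ∃ (V : Type) (_ : AddCommGroup V) (_ : Module K V) (_ : Module.Finite K V),
    Nonempty (SES (D (a + 1)) (Fr V) (D a)) := by
  cases a with
  | ofNat a => exact ⟨_, _, _, inferInstance, ses_ZA a⟩
  | negSucc a =>
    cases a with
    | zero =>
      obtain ⟨S⟩ := ses_ZB 0
      exact ⟨_, _, _, inferInstance, ⟨S.iso1 isoBA⟩⟩
    | succ a => exact ⟨_, _, _, inferInstance, ses_ZB (a + 1)⟩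

instance fin_fr (V : Type) [AddCommGroup V] [Module K V] [Module.Finite K V] :
    Module.Finite K (Fr V).V := inferInstanceAs (Module.Finite K (V × V × V × V))

/-- the unit object is `D 0` -/
noncomputable def isoUnit : 𝟙_ Rp ≅ D 0 :=
  isoMk (X := 𝟙_ Rp) (Y := ZA 0)
    { toFun := fun c => ((fun _ => c : Fin 1 → K), (0 : Fin 0 → K))
      map_add' := fun u v => Prod.ext rfl (Subsingleton.elim _ _)
      map_smul' := fun r v => Prod.ext rfl (Subsingleton.elim _ _)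
      invFun := fun c => (c.1 0 : K)
      left_inv := fun c => rfl
      right_inv := fun c => Prod.ext (by
        funext j
        have : j = 0 := Fin.ext (by have h := j.isLt; simp only [Fin.val_zero]; omega)
        rw [this]) (Subsingleton.elim _ _) }
    (fun v => by
      rw [zax]
      refine Prod.ext ?_ (Subsingleton.elim _ _)
      funext j
      change xo (𝟙_ Rp) v = 0
      rw [xo_apply]
      exact add_self v)
    (fun v => by
      rw [zay]
      refine Prod.ext ?_ (Subsingleton.elim _ _)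
      funext j
      change yo (𝟙_ Rp) v = 0
      rw [yo_apply]
      exact add_self v)

/-- tensoring with `Ω k` -/
theorem step_up (X : Rp) [Module.Finite K X.V] (a : ℤ) :
    d (X ⊗ (D a ⊗ D 1)) = d (X ⊗ D (a + 1)) := by
  obtain ⟨V, _, _, _, ⟨S⟩⟩ := ses_D a
  obtain ⟨V', _, _, _, ⟨S'⟩⟩ := ses_D 0
  have e : D a ⊗ D 0 ≅ D a := (whiskerLeftIso (D a) isoUnit.symm) ≪≫ ρ_ (D a)
  have S2 : SES (D a ⊗ D 1) (D a ⊗ Fr V') (D a) := (S'.tens (D a)).iso3 e
  exact d_eq (S2.tens X) (S.tens X)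

noncomputable def swapIso (X A B C : Rp) : (X ⊗ A) ⊗ (B ⊗ C) ≅ (X ⊗ B) ⊗ (A ⊗ C) :=
  α_ X A (B ⊗ C) ≪≫ whiskerLeftIso X ((α_ A B C).symm ≪≫ whiskerRightIso (β_ A B) C ≪≫
    α_ B A C) ≪≫ (α_ X B (A ⊗ C)).symm

/-- tensoring with `Ω⁻¹ k` -/
theorem step_down (X : Rp) [Module.Finite K X.V] (a : ℤ) :
    d (X ⊗ (D a ⊗ D (-1))) = d (X ⊗ D (a - 1)) := by
  have h1 := step_up (X ⊗ D (-1)) (a - 1)
  rw [sub_add_cancel] at h1
  have h2 := step_up (X ⊗ D (a - 1)) (-1)
  have e1 : (X ⊗ D (-1)) ⊗ (D (a - 1) ⊗ D 1) ≅ (X ⊗ D (a - 1)) ⊗ (D (-1) ⊗ D 1) :=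
    swapIso _ _ _ _
  have e2 : X ⊗ (D a ⊗ D (-1)) ≅ (X ⊗ D (-1)) ⊗ D a :=
    whiskerLeftIso X (β_ (D a) (D (-1))) ≪≫ (α_ _ _ _).symm
  have e3 : (X ⊗ D (a - 1)) ⊗ D (-1 + 1) ≅ X ⊗ D (a - 1) :=
    (whiskerLeftIso (X ⊗ D (a - 1)) isoUnit.symm) ≪≫ ρ_ _
  rw [d_iso e2, ← h1, d_iso e1, h2, d_iso e3]

/-- the module `M = Ω k ⊞ Ω⁻¹ k` -/
noncomputable def M : Rp := D 1 ⊞ D (-1)

instance : Module.Finite K M.V := fin_biprod _ _

/-- tensor powers -/
noncomputable def T (n : ℕ) : Rp := (fun X : Rp => X ⊗ M)^[n] (𝟙_ Rp)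

theorem T_succ (n : ℕ) : T (n + 1) = T n ⊗ M := Function.iterate_succ_apply' _ _ _

instance fin_T (n : ℕ) : Module.Finite K (T n).V := by
  induction n with
  | zero => exact fin_unit
  | succ n ih =>
    rw [T_succ]
    infer_instance

/-- `φ n a = d (M ^ n ⊗ D a)` -/
noncomputable def phi (n : ℕ) (a : ℤ) : ℤ := d (T n ⊗ D a)

theorem phi_zero (a : ℤ) : phi 0 a = 2 * |a| + 1 := by
  have e : T 0 ⊗ D a ≅ D a := λ_ (D a)
  unfold phi
  rw [d_iso e, d_D]

theorem phi_succ (n : ℕ) (a : ℤ) : phi (n + 1) a = phi n (a + 1) + phi n (a - 1) := by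
  unfold phi
  rw [T_succ]
  let F : Rp ⥤ Rp := tensorLeft (T n) ⋙ tensorRight (D a)
  have hF : PreservesBinaryBiproducts F := preservesBinaryBiproducts_of_preservesBiproducts F
  have e : (T n ⊗ M) ⊗ D a ≅ (T n ⊗ D 1) ⊗ D a ⊞ (T n ⊗ D (-1)) ⊗ D a :=
    F.mapBiprod (D 1) (D (-1))
  have e1 : (T n ⊗ D 1) ⊗ D a ≅ T n ⊗ (D a ⊗ D 1) :=
    α_ _ _ _ ≪≫ whiskerLeftIso _ (β_ _ _)
  have e2 : (T n ⊗ D (-1)) ⊗ D a ≅ T n ⊗ (D a ⊗ D (-1)) :=
    α_ _ _ _ ≪≫ whiskerLeftIso _ (β_ _ _)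
  rw [d_iso e, d_biprod, d_iso e1, d_iso e2, step_up, step_down]

theorem d_T (n : ℕ) : d (T n) = phi n 0 := by
  have e : T n ⊗ D 0 ≅ T n := (whiskerLeftIso (T n) isoUnit.symm) ≪≫ ρ_ _
  unfold phi
  rw [d_iso e]

end Pool.Agent.X29.V4
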