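import Mathlib

set_option autoImplicit false

/-!
# A series that is not rational
-/

namespace Pool.Agent.X29.V4

open Polynomial

/-- walks of length `n` from `a` to `0` -/
def u : ℕ → ℤ → ℤ
  | 0, a => if a = 0 then 1 else 0
  | n + 1, a => u n (a + 1) + u n (a - 1)

theorem u_big (n : ℕ) : ∀ a : ℤ, (n : ℤ) < a → u n a = 0 := by
  induction n with
  | zero =>
    intro a ha
    unfold u
    rw [if_neg]
    push_cast at ha
    omega
  | succ n ih =>
    intro a ha
    unfold u
    push_cast at ha
    rw [ih _ (by omega), ih _ (by omega), add_zero]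

theorem u_odd (n : ℕ) : ∀ a : ℤ, ((n : ℤ) + a) % 2 = 1 → u n a = 0 := by
  induction n with
  | zero =>
    intro a ha
    unfold u
    rw [if_neg]
    push_cast at ha
    omega
  | succ n ih =>
    intro a ha
    unfold u
    push_cast at ha
    rw [ih _ (by omega), ih _ (by omega), add_zero]

theorem u_choose (n : ℕ) : ∀ j : ℕ, u n ((n : ℤ) - 2 * j) = n.choose j := by
  induction n with
  | zero =>
    intro j
    cases j with
    | zero => simp [u]
    | succ j =>
      unfold u
      rw [if_neg]
      · simp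
      · push_cast
        omega
  | succ n ih =>
    intro j
    cases j with
    | zero =>
      have h1 : ((n + 1 : ℕ) : ℤ) - 2 * ((0 : ℕ) : ℤ) + 1 = (n : ℤ) + 2 := by push_cast; ring
      have h2 : ((n + 1 : ℕ) : ℤ) - 2 * ((0 : ℕ) : ℤ) - 1 = (n : ℤ) - 2 * ((0 : ℕ) : ℤ) := by
        push_cast; ring
      rw [u, h1, h2, u_big n _ (by omega), ih 0]
      simp
    | succ j =>
      have h1 : ((n + 1 : ℕ) : ℤ) - 2 * ((j + 1 : ℕ) : ℤ) + 1 = (n : ℤ) - 2 * (j : ℤ) := by
        push_cast; ring
      have h2 : ((n + 1 : ℕ) : ℤ) - 2 * ((j + 1 : ℕ) : ℤ) - 1 = (n : ℤ) - 2 * ((j + 1 : ℕ) : ℤ) := by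
        push_cast; ring
      rw [u, h1, h2, ih j, ih (j + 1), Nat.choose_succ_succ]
      push_cast
      ring

/-- the recurrence for the central coefficients -/
theorem u_rec (n : ℕ) : ((n : ℚ) + 2) * (u (n + 2) 0 : ℚ) = 4 * ((n : ℚ) + 1) * (u n 0 : ℚ) := by
  rcases Nat.even_or_odd' n with ⟨m, rfl | rfl⟩
  · have h1 : u (2 * m) 0 = (Nat.centralBinom m : ℤ) := by
      have h := u_choose (2 * m) m
      rw [Nat.centralBinom_eq_two_mul_choose, ← h]
      congr 1
      push_cast
      ring
    have h2 : u (2 * m + 2) 0 = (Nat.centralBinom (m + 1) : ℤ) := by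
      have h := u_choose (2 * (m + 1)) (m + 1)
      rw [Nat.centralBinom_eq_two_mul_choose, ← h]
      congr 1
      push_cast
      ring
    have h3 := Nat.succ_mul_centralBinom_succ m
    have h4 : ((m : ℚ) + 1) * (Nat.centralBinom (m + 1) : ℚ) =
        2 * (2 * (m : ℚ) + 1) * (Nat.centralBinom m : ℚ) := by
      exact_mod_cast h3
    rw [h1, h2]
    push_cast
    linear_combination 2 * h4
  · have h1 : u (2 * m + 1) 0 = 0 := u_odd _ _ (by push_cast; omega)
    have h2 : u (2 * m + 1 + 2) 0 = 0 := u_odd _ _ (by push_cast; omega)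
    rw [h1, h2]
    simp

/-- the generating series of the central coefficients -/
noncomputable def hser : PowerSeries ℚ := PowerSeries.mk fun n => (u n 0 : ℚ)

theorem u_one : u 1 0 = 0 := by
  simp [u]

theorem hser_deriv : (1 - 4 * PowerSeries.X ^ 2) * PowerSeries.derivative ℚ hser =
    4 * PowerSeries.X * hser := by
  have e4 : (4 : PowerSeries ℚ) = PowerSeries.C 4 := (map_ofNat PowerSeries.C 4).symm
  have k : (1 - 4 * PowerSeries.X ^ 2) * PowerSeries.derivative ℚ hser =
      PowerSeries.derivative ℚ hser -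
        PowerSeries.C 4 * (PowerSeries.X ^ 2 * PowerSeries.derivative ℚ hser) := by
    rw [e4]
    ring
  rw [k, e4, mul_assoc]
  ext n
  rw [map_sub, PowerSeries.coeff_C_mul, PowerSeries.coeff_C_mul, PowerSeries.coeff_derivative]
  have hc : ∀ n, PowerSeries.coeff n hser = (u n 0 : ℚ) := fun n => PowerSeries.coeff_mk _ _
  rcases n with _ | _ | n
  · rw [PowerSeries.coeff_zero_X_mul, hc]
    have : PowerSeries.coeff 0 (PowerSeries.X ^ 2 * PowerSeries.derivative ℚ hser) = 0 := by
      rw [PowerSeries.coeff_zero_eq_constantCoeff_apply]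
      simp
    rw [this, u_one]
    simp
  · rw [PowerSeries.coeff_succ_X_mul, hc, hc]
    have : PowerSeries.coeff (0 + 1) (PowerSeries.X ^ 2 * PowerSeries.derivative ℚ hser) = 0 := by
      rw [pow_two, mul_assoc, PowerSeries.coeff_succ_X_mul, PowerSeries.coeff_zero_X_mul]
    rw [this]
    have h := u_rec 0
    push_cast at h ⊢
    linarith
  · rw [PowerSeries.coeff_succ_X_mul, hc, hc, pow_two, mul_assoc, PowerSeries.coeff_succ_X_mul,
      PowerSeries.coeff_succ_X_mul, PowerSeries.coeff_derivative, hc]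
    have h := u_rec (n + 1)
    push_cast at h ⊢
    linarith

theorem hser_sq : hser ^ 2 * (1 - 4 * PowerSeries.X ^ 2) = 1 := by
  apply PowerSeries.derivative.ext
  · have e4 : (4 : PowerSeries ℚ) = PowerSeries.C 4 := (map_ofNat PowerSeries.C 4).symm
    have d4 : PowerSeries.derivative ℚ (4 : PowerSeries ℚ) = 0 := by
      rw [e4]
      exact PowerSeries.derivative_C
    have d1 : PowerSeries.derivative ℚ (1 : PowerSeries ℚ) = 0 := Derivation.map_one_eq_zero _
    have dX : PowerSeries.derivative ℚ (PowerSeries.X : PowerSeries ℚ) = 1 :=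
      PowerSeries.derivative_X
    rw [Derivation.leibniz, pow_two, Derivation.leibniz, map_sub, Derivation.leibniz, pow_two,
      Derivation.leibniz, d4, d1, dX]
    simp only [smul_eq_mul, mul_one, mul_zero, add_zero, zero_sub]
    linear_combination (2 * hser) * hser_deriv
  · rw [map_mul, map_sub, map_mul, map_pow, map_pow, PowerSeries.constantCoeff_X]
    have : PowerSeries.constantCoeff hser = 1 := by
      rw [← PowerSeries.coeff_zero_eq_constantCoeff_apply]
      unfold hser
      rw [PowerSeries.coeff_mk]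
      simp [u]
    rw [this]
    simp

/-- the central series is not rational -/
theorem hser_not_rational (P Q : ℚ[X]) (hQ : Q ≠ 0)
    (h : (Q : PowerSeries ℚ) * hser = (P : PowerSeries ℚ)) : False := by
  have h1 : P * P * ((X - C (1 / 2)) * (C (-4) * X + C (-2))) = Q * Q := by
    have h2 : ((P * P * ((X - C (1 / 2)) * (C (-4) * X + C (-2))) : ℚ[X]) : PowerSeries ℚ) =
        ((Q * Q : ℚ[X]) : PowerSeries ℚ) := by
      have e : ((X - C (1 / 2)) * (C (-4) * X + C (-2)) : ℚ[X]) = 1 - C 4 * X ^ 2 := by
        have e1 : (C (-4) : ℚ[X]) = -C 4 := by rw [map_neg]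
        have e2 : (C (-2) : ℚ[X]) = -C 2 := by rw [map_neg]
        have e3 : (C (1 / 2) * C 4 : ℚ[X]) = C 2 := by rw [← map_mul]; norm_num
        have e5 : (C (1 / 2) * C 2 : ℚ[X]) = 1 := by rw [← map_mul]; norm_num
        rw [e1, e2]
        linear_combination X * e3 + e5
      rw [e]
      push_cast
      rw [← h]
      have e4 : (4 : PowerSeries ℚ) = PowerSeries.C 4 := (map_ofNat PowerSeries.C 4).symm
      have := hser_sq
      rw [e4] at this
      linear_combination ((Q : PowerSeries ℚ) * Q) * this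
    exact Polynomial.coe_injective ℚ h2
  have hQQ : Q * Q ≠ 0 := mul_ne_zero hQ hQ
  have hne : P * P * ((X - C (1 / 2)) * (C (-4) * X + C (-2))) ≠ 0 := by
    rw [h1]
    exact hQQ
  have h3 := congrArg (rootMultiplicity (1 / 2)) h1
  rw [rootMultiplicity_mul hne, rootMultiplicity_mul (left_ne_zero_of_mul hne),
    rootMultiplicity_mul (right_ne_zero_of_mul hne), rootMultiplicity_mul hQQ,
    rootMultiplicity_X_sub_C_self] at h3
  have h4 : rootMultiplicity (1 / 2) (C (-4) * X + C (-2) : ℚ[X]) = 0 := by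
    apply rootMultiplicity_eq_zero
    intro hr
    unfold IsRoot at hr
    simp at hr
    norm_num at hr
  rw [h4] at h3
  omega

/-- the series of the recursion is not rational -/
theorem not_rational {phi : ℕ → ℤ → ℤ} (h0 : ∀ a, phi 0 a = 2 * |a| + 1)
    (hs : ∀ n a, phi (n + 1) a = phi n (a + 1) + phi n (a - 1)) (P Q : ℚ[X]) (hQ : Q ≠ 0)
    (h : (Q : PowerSeries ℚ) * PowerSeries.mk (fun n => (phi n 0 : ℚ)) = (P : PowerSeries ℚ)) :
    False := by
  have key : ∀ n : ℕ, ∀ a : ℤ, phi (n + 1) a - 2 * phi n a = 4 * u n a := by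
    intro n
    induction n with
    | zero =>
      intro a
      rw [hs, h0, h0, h0]
      unfold u
      split_ifs with ha
      · subst ha
        simp
      · rcases lt_or_gt_of_ne ha with h | h
        · rw [abs_of_neg h, abs_of_nonpos (by omega), abs_of_neg (by omega)]
          ring
        · rw [abs_of_pos h, abs_of_pos (by omega), abs_of_nonneg (by omega)]
          ring
    | succ n ih =>
      intro a
      rw [hs (n + 1) a, hs n a, u]
      linarith [ih (a + 1), ih (a - 1)]
  have h2 : (1 - PowerSeries.C 2 * PowerSeries.X) * PowerSeries.mk (fun n => (phi n 0 : ℚ)) =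
      1 + PowerSeries.C 4 * (PowerSeries.X * hser) := by
    rw [sub_mul, one_mul, mul_assoc]
    ext n
    rw [map_sub, map_add, PowerSeries.coeff_C_mul, PowerSeries.coeff_C_mul, PowerSeries.coeff_mk,
      PowerSeries.coeff_one]
    rcases n with _ | n
    · rw [PowerSeries.coeff_zero_X_mul, PowerSeries.coeff_zero_X_mul, h0]
      simp
    · rw [PowerSeries.coeff_succ_X_mul, PowerSeries.coeff_succ_X_mul, PowerSeries.coeff_mk]
      unfold hser
      rw [PowerSeries.coeff_mk, if_neg (by omega)]
      have := key n 0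
      have h3 : (phi (n + 1) 0 : ℚ) - 2 * (phi n 0 : ℚ) = 4 * (u n 0 : ℚ) := by
        exact_mod_cast this
      linarith
  apply hser_not_rational ((1 - C 2 * X) * P - Q) (C 4 * X * Q)
  · apply mul_ne_zero _ hQ
    apply mul_ne_zero _ X_ne_zero
    rw [Ne, C_eq_zero]
    norm_num
  · push_cast
    rw [← h]
    linear_combination (-(Q : PowerSeries ℚ)) * h2

end Pool.Agent.X29.V4
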