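import Pool.Agent.X29.V4.Lin

set_option autoImplicit false

/-!
# Direct sums, tensor products, exact sequences
-/

open CategoryTheory CategoryTheory.MonoidalCategory CategoryTheory.Limits

namespace Pool.Agent.X29.V4

section Biprod

variable (X Y : Rp)

theorem bi_fst_inl (v : X.V) : (biprod.fst : X ⊞ Y ⟶ X).hom ((biprod.inl : X ⟶ X ⊞ Y).hom v) = v :=
  congrArg (fun f : X ⟶ X => f.hom v) (biprod.inl_fst (X := X) (Y := Y))
theorem bi_snd_inr (v : Y.V) : (biprod.snd : X ⊞ Y ⟶ Y).hom ((biprod.inr : Y ⟶ X ⊞ Y).hom v) = v :=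
  congrArg (fun f : Y ⟶ Y => f.hom v) (biprod.inr_snd (X := X) (Y := Y))
theorem bi_snd_inl (v : X.V) : (biprod.snd : X ⊞ Y ⟶ Y).hom ((biprod.inl : X ⟶ X ⊞ Y).hom v) = 0 :=
  congrArg (fun f : X ⟶ Y => f.hom v) (biprod.inl_snd (X := X) (Y := Y))
theorem bi_fst_inr (v : Y.V) : (biprod.fst : X ⊞ Y ⟶ X).hom ((biprod.inr : Y ⟶ X ⊞ Y).hom v) = 0 :=
  congrArg (fun f : Y ⟶ X => f.hom v) (biprod.inr_fst (X := X) (Y := Y))
theorem bi_total (w : (X ⊞ Y : Rp).V) : (biprod.inl : X ⟶ X ⊞ Y).hom
    ((biprod.fst : X ⊞ Y ⟶ X).hom w) + (biprod.inr : Y ⟶ X ⊞ Y).hom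
      ((biprod.snd : X ⊞ Y ⟶ Y).hom w) = w :=
  congrArg (fun f : X ⊞ Y ⟶ X ⊞ Y => f.hom w) (biprod.total (X := X) (Y := Y))

noncomputable def bilin : (X ⊞ Y : Rp).V ≃ₗ[K] X.V × Y.V :=
  { LinearMap.prod (biprod.fst : X ⊞ Y ⟶ X).hom.toLinearMap
      (biprod.snd : X ⊞ Y ⟶ Y).hom.toLinearMap with
    invFun := fun p => (biprod.inl : X ⟶ X ⊞ Y).hom p.1 + (biprod.inr : Y ⟶ X ⊞ Y).hom p.2
    left_inv := fun w => bi_total X Y w
    right_inv := fun p => by
      change ((biprod.fst : X ⊞ Y ⟶ X).hom _, (biprod.snd : X ⊞ Y ⟶ Y).hom _) = p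
      rw [map_add, map_add, bi_fst_inl, bi_snd_inl, bi_fst_inr, bi_snd_inr, add_zero, zero_add] }

instance fin_biprod [Module.Finite K X.V] [Module.Finite K Y.V] : Module.Finite K (X ⊞ Y : Rp).V :=
  Module.Finite.equiv (bilin X Y).symm

theorem finrank_biprod [Module.Finite K X.V] [Module.Finite K Y.V] :
    Module.finrank K (X ⊞ Y : Rp).V = Module.finrank K X.V + Module.finrank K Y.V := by
  rw [(bilin X Y).finrank_eq, Module.finrank_prod]

theorem rank_biprod [Module.Finite K X.V] [Module.Finite K Y.V] :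
    Module.finrank K (LinearMap.range (sg (X ⊞ Y))) =
      Module.finrank K (LinearMap.range (sg X)) + Module.finrank K (LinearMap.range (sg Y)) := by
  have h : (LinearMap.range (sg (X ⊞ Y))).map (bilin X Y).toLinearMap =
      (LinearMap.range (sg X)).prod (LinearMap.range (sg Y)) := by
    ext p
    constructor
    · rintro ⟨_, ⟨w, rfl⟩, rfl⟩
      exact ⟨⟨_, (hom_sg (biprod.fst : X ⊞ Y ⟶ X) w).symm⟩,
        ⟨_, (hom_sg (biprod.snd : X ⊞ Y ⟶ Y) w).symm⟩⟩
    · obtain ⟨p1, p2⟩ := p
      rintro ⟨⟨a, ha⟩, ⟨b, hb⟩⟩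
      refine ⟨_, ⟨(biprod.inl : X ⟶ X ⊞ Y).hom a + (biprod.inr : Y ⟶ X ⊞ Y).hom b, rfl⟩, ?_⟩
      change ((biprod.fst : X ⊞ Y ⟶ X).hom _, (biprod.snd : X ⊞ Y ⟶ Y).hom _) = _
      simp only [hom_sg, map_add, bi_fst_inl, bi_snd_inl, bi_fst_inr, bi_snd_inr, map_zero,
        add_zero, zero_add]
      exact Prod.ext ha hb
  have h2 := LinearEquiv.finrank_map_eq (bilin X Y) (LinearMap.range (sg (X ⊞ Y)))
  rw [← h2]
  have h3 : Module.finrank K ((LinearMap.range (sg X)).prod (LinearMap.range (sg Y))) =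
      Module.finrank K (LinearMap.range (sg X)) + Module.finrank K (LinearMap.range (sg Y)) := by
    have g1 := rn (LinearMap.fst K X.V Y.V) ((LinearMap.range (sg X)).prod (LinearMap.range (sg Y)))
    have g2 : ((LinearMap.range (sg X)).prod (LinearMap.range (sg Y))).map
        (LinearMap.fst K X.V Y.V) = LinearMap.range (sg X) := by
      ext v
      constructor
      · rintro ⟨w, hw, rfl⟩
        exact hw.1
      · intro hv
        exact ⟨(v, 0), ⟨hv, Submodule.zero_mem _⟩, rfl⟩
    have g3 : ((LinearMap.range (sg X)).prod (LinearMap.range (sg Y)) ⊓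
        LinearMap.ker (LinearMap.fst K X.V Y.V) : Submodule K (X.V × Y.V)) =
        (LinearMap.range (sg Y)).map (LinearMap.inr K X.V Y.V) := by
      ext v
      constructor
      · rintro ⟨h1, h2⟩
        exact ⟨v.2, h1.2, Prod.ext (LinearMap.mem_ker.mp h2).symm rfl⟩
      · rintro ⟨w, hw, rfl⟩
        exact ⟨⟨Submodule.zero_mem _, hw⟩, rfl⟩
    rw [g2, g3] at g1
    rw [← g1]
    congr 1
    exact (LinearEquiv.finrank_eq (Submodule.equivMapOfInjective _ LinearMap.inr_injective _)).symm
  rw [← h3, ← h]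

theorem d_biprod [Module.Finite K X.V] [Module.Finite K Y.V] : d (X ⊞ Y) = d X + d Y := by
  unfold d
  rw [finrank_biprod, rank_biprod]
  push_cast
  ring

end Biprod

instance fin_tens (X Y : Rp) [Module.Finite K X.V] [Module.Finite K Y.V] :
    Module.Finite K (X ⊗ Y : Rp).V :=
  inferInstanceAs (Module.Finite K (TensorProduct K X.V Y.V))

instance fin_unit : Module.Finite K (𝟙_ Rp).V := inferInstanceAs (Module.Finite K K)

/-- tensoring an exact sequence -/
noncomputable def SES.tens {A B C : Rp} (S : SES A B C) (X : Rp) : SES (X ⊗ A) (X ⊗ B) (X ⊗ C) where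
  i := X ◁ S.i
  p := X ◁ S.p
  inj := by
    have h : Function.Injective (LinearMap.lTensor X.V S.i.hom.toLinearMap) := by
      apply Module.Flat.lTensor_preserves_injective_linearMap
      rw [← LinearMap.ker_eq_bot, LinearMap.ker_eq_bot']
      exact S.inj
    intro v hv
    apply h
    rw [map_zero]
    exact hv
  surj := LinearMap.lTensor_surjective X.V S.surj
  zero := by
    have h : Function.Exact S.i.hom.toLinearMap S.p.hom.toLinearMap := by
      intro v
      constructor
      · intro hv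
        obtain ⟨u, hu⟩ := S.exact v hv
        exact ⟨u, hu⟩
      · rintro ⟨u, rfl⟩
        exact S.zero u
    have h2 := lTensor_exact X.V h S.surj
    intro v
    exact (h2 _).mpr ⟨v, rfl⟩
  exact := by
    have h : Function.Exact S.i.hom.toLinearMap S.p.hom.toLinearMap := by
      intro v
      constructor
      · intro hv
        obtain ⟨u, hu⟩ := S.exact v hv
        exact ⟨u, hu⟩
      · rintro ⟨u, rfl⟩
        exact S.zero u
    have h2 := lTensor_exact X.V h S.surj
    intro v hv
    exact (h2 _).mp hv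

/-- changing the third object by an isomorphism -/
noncomputable def SES.iso3 {A B C C' : Rp} (S : SES A B C) (e : C ≅ C') : SES A B C' where
  i := S.i
  p := S.p ≫ e.hom
  inj := S.inj
  surj := by
    intro w
    obtain ⟨v, hv⟩ := S.surj (e.inv.hom w)
    refine ⟨v, ?_⟩
    change e.hom.hom (S.p.hom v) = w
    rw [hv]
    exact Rep.hom_inv_apply _ _ e w
  zero := by
    intro v
    change e.hom.hom (S.p.hom (S.i.hom v)) = 0
    rw [S.zero, map_zero]
  exact := by
    intro v hv
    apply S.exact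
    apply (lin e).injective
    rw [map_zero]
    exact hv

/-- changing the first object by an isomorphism -/
noncomputable def SES.iso1 {A A' B C : Rp} (S : SES A B C) (e : A' ≅ A) : SES A' B C where
  i := e.hom ≫ S.i
  p := S.p
  inj := by
    intro v hv
    have h := S.inj (e.hom.hom v) hv
    apply (lin e).injective
    rw [map_zero]
    exact h
  surj := S.surj
  zero := fun v => S.zero _
  exact := by
    intro v hv
    obtain ⟨u, hu⟩ := S.exact v hv
    refine ⟨e.inv.hom u, ?_⟩
    change S.i.hom (e.hom.hom (e.inv.hom u)) = v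
    rw [Rep.hom_inv_apply]
    exact hu

/-- exactness by dimension count -/
noncomputable def SES.ofDim {A B C : Rp} [Module.Finite K A.V] [Module.Finite K B.V]
    [Module.Finite K C.V] (i : A ⟶ B) (p : B ⟶ C) (inj : ∀ v, i.hom v = 0 → v = 0)
    (surj : ∀ w, ∃ v, p.hom v = w) (zero : ∀ v, p.hom (i.hom v) = 0)
    (dim : Module.finrank K B.V = Module.finrank K A.V + Module.finrank K C.V) : SES A B C where
  i := i
  p := p
  inj := inj
  surj := surj
  zero := zero
  exact := by
    have hi : Function.Injective i.hom.toLinearMap := by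
      rw [← LinearMap.ker_eq_bot, LinearMap.ker_eq_bot']
      exact inj
    have h1 := rn_top p.hom.toLinearMap
    rw [LinearMap.range_eq_top.mpr surj, finrank_top] at h1
    have h2 : LinearMap.range i.hom.toLinearMap = LinearMap.ker p.hom.toLinearMap := by
      apply Submodule.eq_of_le_of_finrank_eq
      · rintro _ ⟨u, rfl⟩
        exact zero u
      · rw [LinearMap.finrank_range_of_inj hi]
        omega
    intro v hv
    have h3 : v ∈ LinearMap.range i.hom.toLinearMap := by
      rw [h2]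
      exact hv
    obtain ⟨u, hu⟩ := h3
    exact ⟨u, hu⟩

instance ihom_epi (X : Rp) : (ihom X).PreservesEpimorphisms where
  preserves {E Z} f hf := by
    have hs := (Rep.epi_iff_surjective f).mp hf
    rw [Rep.epi_iff_surjective]
    obtain ⟨s, hs⟩ := LinearMap.exists_rightInverse_of_surjective f.hom.toLinearMap
      (LinearMap.range_eq_top.mpr hs)
    intro (φ : X.V →ₗ[K] Z.V)
    refine ⟨(s ∘ₗ φ : X.V →ₗ[K] E.V), ?_⟩
    change f.hom.toLinearMap ∘ₗ (s ∘ₗ φ) = φ
    rw [← LinearMap.comp_assoc, hs, LinearMap.id_comp]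

instance tens_projective (X P : Rp) [hP : Projective P] : Projective (X ⊗ P) :=
  (ihom.adjunction X).map_projective P hP

/-- the two syzygies of an object have the same `d` -/
theorem d_eq {A A' P P' Y : Rp} [Module.Finite K A.V] [Module.Finite K P.V] [Module.Finite K Y.V]
    [Module.Finite K A'.V] [Module.Finite K P'.V]
    [Projective P] [Projective P'] (S : SES A P Y) (S' : SES A' P' Y) : d A = d A' := by
  rw [d_syzygy S, d_syzygy S']

end Pool.Agent.X29.V4
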