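import Pool.Agent.X29.V4.Tens

set_option autoImplicit false

/-!
# The zigzag modules (the syzygies of the trivial module)
-/

open CategoryTheory CategoryTheory.MonoidalCategory CategoryTheory.Limits

namespace Pool.Agent.X29.V4

/-! ### the modules `A a` of dimension `2 a + 1` (positive syzygies) -/

section A
variable (a : ℕ)

noncomputable def ax : ((Fin (a + 1) → K) × (Fin a → K)) →ₗ[K] ((Fin (a + 1) → K) × (Fin a → K)) :=
  LinearMap.inr K _ _ ∘ₗ LinearMap.funLeft K K (Fin.succ : Fin a → Fin (a + 1)) ∘ₗ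
    LinearMap.fst K _ _
noncomputable def ay : ((Fin (a + 1) → K) × (Fin a → K)) →ₗ[K] ((Fin (a + 1) → K) × (Fin a → K)) :=
  LinearMap.inr K _ _ ∘ₗ LinearMap.funLeft K K (Fin.castSucc : Fin a → Fin (a + 1)) ∘ₗ
    LinearMap.fst K _ _

noncomputable abbrev ZA : Rp :=
  mk ((Fin (a + 1) → K) × (Fin a → K)) (ax a) (ay a) (fun _ => rfl) (fun _ => rfl) (fun _ => rfl)

theorem zax (c : (Fin (a + 1) → K) × (Fin a → K)) : xo (ZA a) c = (0, c.1 ∘ Fin.succ) :=
  xo_mk _ _ _ _ _ _ c
theorem zay (c : (Fin (a + 1) → K) × (Fin a → K)) : yo (ZA a) c = (0, c.1 ∘ Fin.castSucc) :=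
  yo_mk _ _ _ _ _ _ c

instance : Module.Finite K (ZA a).V := inferInstanceAs
  (Module.Finite K ((Fin (a + 1) → K) × (Fin a → K)))

theorem finrank_ZA : Module.finrank K (ZA a).V = 2 * a + 1 := by
  change Module.finrank K ((Fin (a + 1) → K) × (Fin a → K)) = _
  rw [Module.finrank_prod, Module.finrank_fin_fun, Module.finrank_fin_fun]
  omega

theorem d_ZA : d (ZA a) = 2 * a + 1 := by
  have h : sg (ZA a) = 0 := by
    apply LinearMap.ext
    intro c
    rw [sg_apply, zay, zax]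
    rfl
  unfold d
  rw [h, LinearMap.range_zero, finrank_bot, finrank_ZA]
  push_cast
  ring

theorem ses_ZA : Nonempty (SES (ZA (a + 1)) (Fr (Fin (a + 1) → K)) (ZA a)) := by
  have hx1 : ∀ c : (Fin (a + 2) → K) × (Fin (a + 1) → K), xo (ZA (a + 1)) c =
      (0, c.1 ∘ Fin.succ) := zax (a + 1)
  have hy1 : ∀ c : (Fin (a + 2) → K) × (Fin (a + 1) → K), yo (ZA (a + 1)) c =
      (0, c.1 ∘ Fin.castSucc) := zay (a + 1)
  let i : (ZA (a + 1)).V →ₗ[K] (Fr (Fin (a + 1) → K)).V :=
    { toFun := fun c => (0, c.1 ∘ Fin.castSucc, c.1 ∘ Fin.succ, c.2)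
      map_add' := fun u v => by
        refine Prod.ext ?_ rfl
        exact (add_zero _).symm
      map_smul' := fun r v => by
        refine Prod.ext ?_ rfl
        exact (smul_zero _).symm }
  have hi : ∀ c : (Fin (a + 2) → K) × (Fin (a + 1) → K),
    i c = (0, c.1 ∘ Fin.castSucc, c.1 ∘ Fin.succ, c.2) := fun _ => rfl
  refine ⟨SES.ofDim (homMk (X := ZA (a + 1)) i ?_ ?_)
    (frLift (X := ZA a) (LinearMap.inl K _ _)) ?_ ?_ ?_ ?_⟩
  · intro v
    rw [frx_apply, hx1, hi]
    rfl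
  · intro v
    rw [fry_apply, hy1, hi]
    rfl
  · intro v hv
    have hv' : i v = 0 := hv
    rw [hi] at hv'
    have e1 : v.1 ∘ Fin.castSucc = 0 :=
      congrArg (fun t : ((Fin (a + 1) → K) × (Fin (a + 1) → K) × (Fin (a + 1) → K) ×
        (Fin (a + 1) → K)) => t.2.1) hv'
    have e2 : v.1 ∘ Fin.succ = 0 :=
      congrArg (fun t : ((Fin (a + 1) → K) × (Fin (a + 1) → K) × (Fin (a + 1) → K) ×
        (Fin (a + 1) → K)) => t.2.2.1) hv'
    have e3 : v.2 = 0 :=
      congrArg (fun t : ((Fin (a + 1) → K) × (Fin (a + 1) → K) × (Fin (a + 1) → K) ×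
        (Fin (a + 1) → K)) => t.2.2.2) hv'
    refine Prod.ext ?_ e3
    funext j
    refine Fin.cases ?_ (fun j => ?_) j
    · exact congrFun e1 0
    · exact congrFun e2 j
  · rintro ⟨u, v⟩
    refine ⟨((u, Fin.cons 0 v, 0, 0) : (Fin (a + 1) → K) × (Fin (a + 1) → K) ×
      (Fin (a + 1) → K) × (Fin (a + 1) → K)), ?_⟩
    rw [frLift_apply, zax, zay]
    simp only [map_zero, add_zero]
    refine Prod.ext ?_ ?_
    · change u + 0 + 0 = u
      simp
    · funext j
      change (0 : K) + (Fin.cons 0 v : Fin (a + 1) → K) j.succ + 0 = v j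
      simp
  · intro v
    change (frLift (X := ZA a) (LinearMap.inl K _ _)).hom (i v) = 0
    have hx0 : ∀ c : (Fin (a + 1) → K) × (Fin a → K), xo (ZA a) c = (0, c.1 ∘ Fin.succ) := zax a
    have hy0 : ∀ c : (Fin (a + 1) → K) × (Fin a → K), yo (ZA a) c =
      (0, c.1 ∘ Fin.castSucc) := zay a
    rw [hi, frLift_apply, hx0, hy0, sg_apply, hy0, hx0, map_zero, zero_add]
    refine Prod.ext ?_ ?_
    · change (0 : Fin (a + 1) → K) + 0 + 0 = 0
      simp
    · funext j
      change v.1 j.succ.castSucc + v.1 j.castSucc.succ + 0 = 0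
      rw [Fin.succ_castSucc, add_zero]
      exact CharTwo.add_self_eq_zero _
  · change Module.finrank K ((Fin (a + 1) → K) × (Fin (a + 1) → K) ×
      (Fin (a + 1) → K) × (Fin (a + 1) → K)) = _
    rw [finrank_ZA, finrank_ZA]
    simp only [Module.finrank_prod, Module.finrank_fin_fun]
    omega

end A

/-! ### the modules `B a` of dimension `2 a + 1` (negative syzygies) -/

section B
variable (a : ℕ)

noncomputable def bx : ((Fin a →₀ K) × (Fin (a + 1) →₀ K)) →ₗ[K]
    ((Fin a →₀ K) × (Fin (a + 1) →₀ K)) :=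
  LinearMap.inr K _ _ ∘ₗ Finsupp.lmapDomain K K (Fin.castSucc : Fin a → Fin (a + 1)) ∘ₗ
    LinearMap.fst K _ _
noncomputable def by' : ((Fin a →₀ K) × (Fin (a + 1) →₀ K)) →ₗ[K]
    ((Fin a →₀ K) × (Fin (a + 1) →₀ K)) :=
  LinearMap.inr K _ _ ∘ₗ Finsupp.lmapDomain K K (Fin.succ : Fin a → Fin (a + 1)) ∘ₗ
    LinearMap.fst K _ _

noncomputable abbrev ZB : Rp :=
  mk ((Fin a →₀ K) × (Fin (a + 1) →₀ K)) (bx a) (by' a)
    (fun v => by
      change ((0 : Fin a →₀ K), Finsupp.mapDomain Fin.castSucc (0 : Fin a →₀ K)) = 0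
      rw [Finsupp.mapDomain_zero]; rfl)
    (fun v => by
      change ((0 : Fin a →₀ K), Finsupp.mapDomain Fin.succ (0 : Fin a →₀ K)) = 0
      rw [Finsupp.mapDomain_zero]; rfl)
    (fun v => by
      change ((0 : Fin a →₀ K), Finsupp.mapDomain Fin.castSucc (0 : Fin a →₀ K)) =
        ((0 : Fin a →₀ K), Finsupp.mapDomain Fin.succ (0 : Fin a →₀ K))
      rw [Finsupp.mapDomain_zero, Finsupp.mapDomain_zero])

theorem zbx (c : (Fin a →₀ K) × (Fin (a + 1) →₀ K)) : xo (ZB a) c =
    (0, Finsupp.mapDomain Fin.castSucc c.1) := xo_mk _ _ _ _ _ _ c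
theorem zby (c : (Fin a →₀ K) × (Fin (a + 1) →₀ K)) : yo (ZB a) c =
    (0, Finsupp.mapDomain Fin.succ c.1) := yo_mk _ _ _ _ _ _ c

instance : Module.Finite K (ZB a).V := inferInstanceAs
  (Module.Finite K ((Fin a →₀ K) × (Fin (a + 1) →₀ K)))

theorem finrank_ZB : Module.finrank K (ZB a).V = 2 * a + 1 := by
  change Module.finrank K ((Fin a →₀ K) × (Fin (a + 1) →₀ K)) = _
  rw [Module.finrank_prod, Module.finrank_finsupp_self, Module.finrank_finsupp_self]
  simp only [Fintype.card_fin]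
  omega

theorem d_ZB : d (ZB a) = 2 * a + 1 := by
  have h : sg (ZB a) = 0 := by
    apply LinearMap.ext
    intro c
    rw [sg_apply, zby, zbx, Finsupp.mapDomain_zero]
    rfl
  unfold d
  rw [h, LinearMap.range_zero, finrank_bot, finrank_ZB]
  push_cast
  ring

theorem ses_ZB : Nonempty (SES (ZB a) (Fr (Fin (a + 1) →₀ K)) (ZB (a + 1))) := by
  have hx1 : ∀ c : (Fin (a + 1) →₀ K) × (Fin (a + 2) →₀ K), xo (ZB (a + 1)) c =
      (0, Finsupp.mapDomain Fin.castSucc c.1) := zbx (a + 1)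
  have hy1 : ∀ c : (Fin (a + 1) →₀ K) × (Fin (a + 2) →₀ K), yo (ZB (a + 1)) c =
      (0, Finsupp.mapDomain Fin.succ c.1) := zby (a + 1)
  let i : (ZB a).V →ₗ[K] (Fr (Fin (a + 1) →₀ K)).V :=
    { toFun := fun c => (0, Finsupp.mapDomain Fin.succ c.1, Finsupp.mapDomain Fin.castSucc c.1, c.2)
      map_add' := fun u v => by
        refine Prod.ext (add_zero _).symm (Prod.ext ?_ (Prod.ext ?_ rfl))
        · exact Finsupp.mapDomain_add
        · exact Finsupp.mapDomain_add
      map_smul' := fun r v => by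
        refine Prod.ext (smul_zero _).symm (Prod.ext ?_ (Prod.ext ?_ rfl))
        · exact Finsupp.mapDomain_smul _ _
        · exact Finsupp.mapDomain_smul _ _ }
  have hi : ∀ c : (Fin a →₀ K) × (Fin (a + 1) →₀ K),
    i c = (0, Finsupp.mapDomain Fin.succ c.1, Finsupp.mapDomain Fin.castSucc c.1, c.2) :=
      fun _ => rfl
  refine ⟨SES.ofDim (homMk (X := ZB a) i ?_ ?_)
    (frLift (X := ZB (a + 1)) (LinearMap.inl K _ _)) ?_ ?_ ?_ ?_⟩
  · intro v
    rw [frx_apply, zbx, hi]
    simp only [Finsupp.mapDomain_zero]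
    rfl
  · intro v
    rw [fry_apply, zby, hi]
    simp only [Finsupp.mapDomain_zero]
    rfl
  · intro v hv
    have hv' : i v = 0 := hv
    rw [hi] at hv'
    have e1 : Finsupp.mapDomain Fin.succ v.1 = 0 :=
      congrArg (fun t : ((Fin (a + 1) →₀ K) × (Fin (a + 1) →₀ K) × (Fin (a + 1) →₀ K) ×
        (Fin (a + 1) →₀ K)) => t.2.1) hv'
    have e3 : v.2 = 0 :=
      congrArg (fun t : ((Fin (a + 1) →₀ K) × (Fin (a + 1) →₀ K) × (Fin (a + 1) →₀ K) ×
        (Fin (a + 1) →₀ K)) => t.2.2.2) hv'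
    refine Prod.ext ?_ e3
    apply Finsupp.mapDomain_injective (Fin.succ_injective a)
    rw [e1, Prod.fst_zero, Finsupp.mapDomain_zero]
  · rintro ⟨u, v⟩
    have key : ∀ v : Fin (a + 2) →₀ K, ∃ s t : Fin (a + 1) →₀ K,
        Finsupp.mapDomain Fin.castSucc s + Finsupp.mapDomain Fin.succ t = v := by
      intro v
      induction v using Finsupp.induction_linear with
      | zero => exact ⟨0, 0, by simp [Finsupp.mapDomain_zero]⟩
      | add f g hf hg =>
        obtain ⟨s, t, h1⟩ := hf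
        obtain ⟨s', t', h2⟩ := hg
        refine ⟨s + s', t + t', ?_⟩
        rw [Finsupp.mapDomain_add, Finsupp.mapDomain_add, ← h1, ← h2]
        abel
      | single j r =>
        refine Fin.cases ?_ (fun j => ?_) j
        · refine ⟨Finsupp.single 0 r, 0, ?_⟩
          rw [Finsupp.mapDomain_zero, add_zero, Finsupp.mapDomain_single]
          rfl
        · refine ⟨0, Finsupp.single j r, ?_⟩
          rw [Finsupp.mapDomain_zero, zero_add, Finsupp.mapDomain_single]
    obtain ⟨s, t, hst⟩ := key v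
    refine ⟨((u, s, t, 0) : (Fin (a + 1) →₀ K) × (Fin (a + 1) →₀ K) ×
      (Fin (a + 1) →₀ K) × (Fin (a + 1) →₀ K)), ?_⟩
    rw [frLift_apply, hx1, hy1]
    simp only [map_zero, add_zero]
    refine Prod.ext ?_ ?_
    · change u + 0 + 0 = u
      simp
    · change 0 + Finsupp.mapDomain Fin.castSucc s + Finsupp.mapDomain Fin.succ t = v
      rw [zero_add, hst]
  · intro v
    change (frLift (X := ZB (a + 1)) (LinearMap.inl K _ _)).hom (i v) = 0
    rw [hi, frLift_apply, hx1, hy1]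
    simp only [map_zero, zero_add]
    refine Prod.ext ?_ ?_
    · change (0 : Fin (a + 1) →₀ K) + 0 + (sg (ZB (a + 1)) _).1 = 0
      rw [sg_apply, hy1, hx1]
      simp
    · change Finsupp.mapDomain Fin.castSucc (Finsupp.mapDomain Fin.succ v.1) +
        Finsupp.mapDomain Fin.succ (Finsupp.mapDomain Fin.castSucc v.1) +
          (sg (ZB (a + 1)) _).2 = 0
      rw [sg_apply, hy1, hx1, Finsupp.mapDomain_zero, add_zero, ← Finsupp.mapDomain_comp,
        ← Finsupp.mapDomain_comp]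
      have e : (Fin.castSucc ∘ Fin.succ : Fin a → Fin (a + 2)) = Fin.succ ∘ Fin.castSucc := by
        funext j
        exact (Fin.succ_castSucc j).symm
      rw [e]
      exact add_self _
  · change Module.finrank K ((Fin (a + 1) →₀ K) × (Fin (a + 1) →₀ K) ×
      (Fin (a + 1) →₀ K) × (Fin (a + 1) →₀ K)) = _
    rw [finrank_ZB, finrank_ZB]
    simp only [Module.finrank_prod, Module.finrank_finsupp_self, Fintype.card_fin]
    omega

end B

end Pool.Agent.X29.V4
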